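import Mathlib
import Pool.Agent.Y166.SM.Stm

/-!
# Even and odd parts (job SM-9 of helper166)
-/

set_option autoImplicit false

namespace Pool.Agent.Y899.SM

open Polynomial Pool.Agent.Y166.SM

variable {A : Type} [CommRing A]

/-- even part -/
noncomputable def ev (P : A[X]) : A[X] := contract 2 P

/-- odd part -/
noncomputable def od (P : A[X]) : A[X] := contract 2 P.divX

theorem split (P : A[X]) : P = (ev P).comp (X ^ 2) + X * (od P).comp (X ^ 2) := by
  rw [← expand_eq_comp_X_pow, ← expand_eq_comp_X_pow]
  ext n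
  rw [coeff_add, coeff_expand (by norm_num)]
  rcases n with _ | n
  · rw [coeff_X_mul_zero]
    simp [ev, coeff_contract]
  · rw [coeff_X_mul, coeff_expand (by norm_num)]
    rcases Nat.even_or_odd n with h | h
    · obtain ⟨m, rfl⟩ := h
      have h1 : ¬ (2 ∣ m + m + 1) := by omega
      have h2 : 2 ∣ m + m := by omega
      rw [if_neg h1, if_pos h2, od, coeff_contract (by norm_num), coeff_divX]
      have : (m + m) / 2 * 2 = m + m := by omega
      rw [this, zero_add]
    · obtain ⟨m, rfl⟩ := h
      have h1 : 2 ∣ 2 * m + 1 + 1 := by omega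
      have h2 : ¬ (2 ∣ 2 * m + 1) := by omega
      rw [if_pos h1, if_neg h2, ev, coeff_contract (by norm_num)]
      have : (2 * m + 1 + 1) / 2 * 2 = 2 * m + 1 + 1 := by omega
      rw [this, add_zero]

theorem comp_neg (P : A[X]) :
    P.comp (-X) = (ev P).comp (X ^ 2) - X * (od P).comp (X ^ 2) := by
  conv_lhs => rw [split P]
  rw [add_comp, mul_comp, X_comp, comp_assoc, comp_assoc]
  have : ((X : A[X]) ^ 2).comp (-X) = X ^ 2 := by
    rw [pow_comp, X_comp, neg_sq]
  rw [this]
  ring

theorem stmEven : StmEven := by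
  intro A _ _ _ n P hP h
  by_cases hE : ∃ j, ev (P j) ≠ 0
  · refine ⟨fun i => ev (P i), hE, fun i j => ?_⟩
    have h2 : (2 : A[X]) ≠ 0 := two_ne_zero
    have h1 := h i j
    rw [comp_neg, comp_neg] at h1
    have h3 := split (P i)
    have h4 := split (P j)
    apply mul_left_cancel₀ h2
    generalize (ev (P i)).comp (X ^ 2) = a at *
    generalize (ev (P j)).comp (X ^ 2) = b at *
    generalize (od (P i)).comp (X ^ 2) = c at *
    generalize (od (P j)).comp (X ^ 2) = d at *
    rw [h3, h4] at h1 ⊢
    linear_combination h1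
  · push Not at hE
    have h5 : ∀ i, P i = X * (od (P i)).comp (X ^ 2) := by
      intro i
      have := split (P i)
      rwa [hE i, zero_comp, zero_add] at this
    refine ⟨fun i => od (P i), ?_, fun i j => ?_⟩
    · obtain ⟨i, hi⟩ := hP
      refine ⟨i, fun h6 => hi ?_⟩
      have h7 : od (P i) = 0 := h6
      rw [h5 i, h7, zero_comp, mul_zero]
    · have h3 := h5 i
      have h4 := h5 j
      simp only
      generalize (od (P i)).comp (X ^ 2) = c at *
      generalize (od (P j)).comp (X ^ 2) = d at *
      rw [h3, h4]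
      ring

end Pool.Agent.Y899.SM
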